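import Mathlib

set_option autoImplicit false

namespace Pool.Agent.AIC34

open scoped BigOperators

/-- multi-indices modulo `q` -/
abbrev Ix34 (q n : ℕ) := Fin n → ZMod q

variable {q n : ℕ} [NeZero q]

/-- Matrix of the multiplication by `U = ∑ u s * Y^s` on `A[Y]/(Y_i^q - b_i)` in the basis `Y^t`. -/
def nmat34 {A : Type*} [CommRing A] (b : Fin n → A) (u : Ix34 q n → A) :
    Matrix (Ix34 q n) (Ix34 q n) A :=
  fun r t => u (r - t) * ∏ i, if (r i).val < (t i).val then b i else 1

/-- the norm form -/
noncomputable def nm34 {A : Type*} [CommRing A] (b : Fin n → A) (u : Ix34 q n → A) : A :=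
  (nmat34 b u).det

/-- the monomial `(zeta^delta y)^t` -/
def mon34 {Om : Type*} [CommRing Om] (zeta : Om) (y : Fin n → Om) (delta t : Ix34 q n) : Om :=
  ∏ i, (zeta ^ ((delta i).val * (t i).val) * y i ^ (t i).val)

/-- `U(zeta^delta y)` -/
def ev34 {A Om : Type*} [CommRing A] [CommRing Om] (f : A →+* Om) (zeta : Om) (y : Fin n → Om)
    (u : Ix34 q n → A) (delta : Ix34 q n) : Om :=
  ∑ s, f (u s) * mon34 zeta y delta s

theorem sum_val34 {M : Type*} [AddCommMonoid M] (g : ℕ → M) :
    ∑ t : ZMod q, g t.val = ∑ k ∈ Finset.range q, g k := by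
  refine Finset.sum_nbij (fun t => t.val) ?_ ?_ ?_ ?_
  · intro t _
    exact Finset.mem_range.mpr (ZMod.val_lt t)
  · intro a _ b _ hab
    exact ZMod.val_injective q hab
  · intro k hk
    have hk' := Finset.mem_range.mp (Finset.mem_coe.mp hk)
    exact ⟨(k : ZMod q), by simp, ZMod.val_cast_of_lt hk'⟩
  · intro t _
    rfl

theorem sum_char34 {Om : Type*} [CommRing Om] [IsDomain Om] {zeta : Om} (hz : IsPrimitiveRoot zeta q)
    (d : ℕ) : ∑ t : ZMod q, (zeta ^ d) ^ t.val = if q ∣ d then (q : Om) else 0 := by
  rw [sum_val34 (fun k => (zeta ^ d) ^ k)]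
  split_ifs with h
  · have : zeta ^ d = 1 := (hz.pow_eq_one_iff_dvd d).mpr h
    simp [this]
  · have h1 : zeta ^ d ≠ 1 := fun h1 => h ((hz.pow_eq_one_iff_dvd d).mp h1)
    have h2 : (zeta ^ d - 1) * ∑ k ∈ Finset.range q, (zeta ^ d) ^ k = 0 := by
      rw [mul_geom_sum, ← pow_mul, mul_comm d q, pow_mul, hz.pow_eq_one, one_pow, sub_self]
    rcases mul_eq_zero.mp h2 with h3 | h3
    · exact absurd (sub_eq_zero.mp h3) h1
    · exact h3

theorem mon_mul34 {Om : Type*} [CommRing Om] {zeta : Om} (hz : zeta ^ q = 1) (y : Fin n → Om)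
    (delta s t : Ix34 q n) :
    mon34 zeta y delta (s + t) * ∏ i, (if ((s + t) i).val < (t i).val then y i ^ q else 1) =
      mon34 zeta y delta s * mon34 zeta y delta t := by
  unfold mon34
  rw [← Finset.prod_mul_distrib, ← Finset.prod_mul_distrib]
  refine Finset.prod_congr rfl fun i _ => ?_
  rw [Pi.add_apply]
  by_cases h : q ≤ (s i).val + (t i).val
  · have h1 : (s i + t i).val = (s i).val + (t i).val - q := ZMod.val_add_of_le h
    have hs := ZMod.val_lt (s i)
    have h2 : (s i).val + (t i).val = (s i + t i).val + q := by omega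
    rw [if_pos (by omega)]
    have e1 : zeta ^ ((delta i).val * (s i).val) * zeta ^ ((delta i).val * (t i).val) =
        zeta ^ ((delta i).val * (s i + t i).val) := by
      rw [← pow_add, ← mul_add, h2, mul_add, pow_add, mul_comm (delta i).val q, pow_mul zeta q, hz, one_pow,
        mul_one]
    have e2 : y i ^ (s i).val * y i ^ (t i).val = y i ^ (s i + t i).val * y i ^ q := by
      rw [← pow_add, h2, pow_add]
    calc zeta ^ ((delta i).val * (s i + t i).val) * y i ^ (s i + t i).val * y i ^ q
        = (zeta ^ ((delta i).val * (s i).val) * zeta ^ ((delta i).val * (t i).val)) *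
          (y i ^ (s i).val * y i ^ (t i).val) := by rw [e1, e2]; ring
      _ = _ := by ring
  · have h1 : (s i + t i).val = (s i).val + (t i).val := ZMod.val_add_of_lt (by omega)
    rw [if_neg (by omega), mul_one, h1, mul_add, pow_add, pow_add]
    ring

/-- (DI): the norm is the product of the conjugates. -/
theorem map_nm34 {A Om : Type*} [CommRing A] [CommRing Om] [IsDomain Om] (f : A →+* Om) {zeta : Om}
    (hz : IsPrimitiveRoot zeta q) (hq : (q : Om) ≠ 0) (b : Fin n → A) (y : Fin n → Om)
    (hy0 : ∀ i, y i ≠ 0) (hy : ∀ i, y i ^ q = f (b i)) (u : Ix34 q n → A) :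
    f (nm34 b u) = ∏ delta, ev34 f zeta y u delta := by
  classical
  set V : Matrix (Ix34 q n) (Ix34 q n) Om := fun delta t => mon34 zeta y delta t with hV
  have key : V * (nmat34 b u).map f = Matrix.diagonal (ev34 f zeta y u) * V := by
    ext delta t
    rw [Matrix.mul_apply, Matrix.diagonal_mul]
    have h1 : ∑ r, V delta r * (nmat34 b u).map f r t =
        ∑ s, V delta (s + t) * (nmat34 b u).map f (s + t) t :=
      (Fintype.sum_equiv (Equiv.addRight t) _ _ (fun s => rfl)).symm
    rw [h1]
    unfold ev34
    rw [Finset.sum_mul]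
    refine Finset.sum_congr rfl fun s _ => ?_
    rw [hV]
    simp only [Matrix.map_apply, nmat34, add_sub_cancel_right, map_mul, map_prod]
    have h2 : (∏ i, f (if ((s + t) i).val < (t i).val then b i else 1)) =
        ∏ i, (if ((s + t) i).val < (t i).val then y i ^ q else 1) := by
      refine Finset.prod_congr rfl fun i _ => ?_
      split_ifs
      · exact (hy i).symm
      · exact map_one f
    rw [h2]
    have h3 := mon_mul34 hz.pow_eq_one y delta s t
    linear_combination (f (u s)) * h3
  have hdetV : V.det ≠ 0 := by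
    set W : Matrix (Ix34 q n) (Ix34 q n) Om := fun t e =>
      ∏ i, (zeta ^ ((q - (e i).val) * (t i).val) * y i ^ (q - (t i).val)) with hW
    have hVW : V * W = Matrix.diagonal (fun _ => ∏ i, (y i ^ q * (q : Om))) := by
      ext delta e
      rw [Matrix.mul_apply, Matrix.diagonal_apply]
      have h1 : ∀ t : Ix34 q n, V delta t * W t e =
          ∏ i, (y i ^ q * (zeta ^ ((delta i).val + (q - (e i).val))) ^ (t i).val) := by
        intro t
        rw [hV, hW]
        simp only [mon34]
        rw [← Finset.prod_mul_distrib]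
        refine Finset.prod_congr rfl fun i _ => ?_
        have ht := ZMod.val_lt (t i)
        have e1 : y i ^ q = y i ^ (t i).val * y i ^ (q - (t i).val) := by
          rw [← pow_add]; congr 1; omega
        rw [e1, ← pow_mul, add_mul, pow_add]
        ring
      rw [Finset.sum_congr rfl fun t _ => h1 t]
      have h2 : ∑ t : Ix34 q n, ∏ i, (y i ^ q * (zeta ^ ((delta i).val + (q - (e i).val))) ^ (t i).val) =
          ∏ i, ∑ t : ZMod q, (y i ^ q * (zeta ^ ((delta i).val + (q - (e i).val))) ^ t.val) := by
        rw [Finset.prod_univ_sum]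
        simp
      rw [h2]
      have h3 : ∀ i, ∑ t : ZMod q, (y i ^ q * (zeta ^ ((delta i).val + (q - (e i).val))) ^ t.val) =
          y i ^ q * (if q ∣ (delta i).val + (q - (e i).val) then (q : Om) else 0) := by
        intro i
        rw [← Finset.mul_sum, sum_char34 hz]
      rw [Finset.prod_congr rfl fun i _ => h3 i]
      by_cases hde : delta = e
      · subst hde
        rw [if_pos rfl]
        refine Finset.prod_congr rfl fun i _ => ?_
        have hd := ZMod.val_lt (delta i)
        rw [if_pos ⟨1, by omega⟩]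
      · rw [if_neg hde]
        obtain ⟨i, hi⟩ := Function.ne_iff.mp hde
        refine Finset.prod_eq_zero (Finset.mem_univ i) ?_
        rw [if_neg, mul_zero]
        rintro ⟨k, hk⟩
        have hd := ZMod.val_lt (delta i)
        have he := ZMod.val_lt (e i)
        have hne : (delta i).val ≠ (e i).val := fun h => hi (ZMod.val_injective q h)
        have hk0 : k = 0 ∨ k = 1 ∨ 2 ≤ k := by omega
        rcases hk0 with h0 | h0 | h0
        · subst h0; omega
        · subst h0; omega
        · have : q * 2 ≤ q * k := Nat.mul_le_mul_left q h0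
          omega
    intro h0
    have h1 : (V * W).det = 0 := by rw [Matrix.det_mul, h0, zero_mul]
    rw [hVW, Matrix.det_diagonal] at h1
    rw [Finset.prod_eq_zero_iff] at h1
    obtain ⟨_, _, h2⟩ := h1
    rw [Finset.prod_eq_zero_iff] at h2
    obtain ⟨i, _, h3⟩ := h2
    exact mul_ne_zero (pow_ne_zero q (hy0 i)) hq h3
  have h4 : V.det * f (nm34 b u) = V.det * ∏ delta, ev34 f zeta y u delta := by
    unfold nm34
    rw [RingHom.map_det, ← RingHom.mapMatrix_apply] at *
    have := congrArg Matrix.det key
    rw [Matrix.det_mul, Matrix.det_mul, Matrix.det_diagonal] at this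
    rw [mul_comm V.det (∏ delta, ev34 f zeta y u delta)]
    exact this
  exact mul_left_cancel₀ hdetV h4

end Pool.Agent.AIC34
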