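import Mathlib

set_option autoImplicit false

namespace Pool.Agent.AIC34

open PowerSeries

variable {κ : Type*} [Field κ]

/-- binomial congruence: adding `a X^(n+1)` changes the `q`-th power by `q c^(q-1) a X^(n+1)` modulo `X^(n+2)`. -/
theorem pow_add_step34 (q n : ℕ) (g : κ⟦X⟧) (a : κ) :
    (X : κ⟦X⟧) ^ (n + 2) ∣
      (g + C a * X ^ (n + 1)) ^ q - (g ^ q + C ((q : κ) * (constantCoeff g) ^ (q - 1) * a) * X ^ (n + 1)) := by
  induction q with
  | zero => simp
  | succ q ih =>
    obtain ⟨w, hw⟩ := ih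
    have hg : ∃ g' : κ⟦X⟧, g = C (constantCoeff g) + X * g' := by
      obtain ⟨g', hg'⟩ := X_dvd_iff.mpr (show constantCoeff (g - C (constantCoeff g)) = 0 by simp)
      exact ⟨g', by rw [← hg']; ring⟩
    obtain ⟨g', hg'⟩ := hg
    have hgq : ∃ h' : κ⟦X⟧, g ^ q = C ((constantCoeff g) ^ q) + X * h' := by
      obtain ⟨h', hh'⟩ := X_dvd_iff.mpr (show constantCoeff (g ^ q - C ((constantCoeff g) ^ q)) = 0 by simp)
      exact ⟨h', by rw [← hh']; ring⟩
    obtain ⟨h', hh'⟩ := hgq
    have e1 : (g + C a * X ^ (n + 1)) ^ q =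
        g ^ q + C ((q : κ) * (constantCoeff g) ^ (q - 1) * a) * X ^ (n + 1) + X ^ (n + 2) * w := by
      rw [← hw]; ring
    rw [pow_succ (g + C a * X ^ (n + 1)) q, pow_succ g q, e1]
    rcases Nat.eq_zero_or_pos q with hq | hq
    · subst hq
      refine ⟨w * (g + C a * X ^ (n + 1)), ?_⟩
      simp
      ring
    · have hpow : (constantCoeff g) ^ q = (constantCoeff g) ^ (q - 1) * constantCoeff g := by
        rw [← pow_succ, Nat.sub_add_cancel hq]
      have hC : (C (((q + 1 : ℕ) : κ) * (constantCoeff g) ^ (q + 1 - 1) * a) : κ⟦X⟧) =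
          C ((q : κ) * (constantCoeff g) ^ (q - 1) * a) * C (constantCoeff g) +
            C ((constantCoeff g) ^ q) * C a := by
        rw [← map_mul, ← map_mul, ← map_add]
        congr 1
        rw [Nat.add_sub_cancel, hpow]
        push_cast
        ring
      refine ⟨w * (g + C a * X ^ (n + 1)) + C ((q : κ) * (constantCoeff g) ^ (q - 1) * a) * g' +
        h' * C a + C ((q : κ) * (constantCoeff g) ^ (q - 1) * a) * C a * X ^ n, ?_⟩
      rw [hC]
      have h1 : C ((q : κ) * (constantCoeff g) ^ (q - 1) * a) * X ^ (n + 1) * g =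
          C ((q : κ) * (constantCoeff g) ^ (q - 1) * a) * X ^ (n + 1) * (C (constantCoeff g) + X * g') := by
        rw [← hg']
      have h2 : g ^ q * (C a * X ^ (n + 1)) = (C ((constantCoeff g) ^ q) + X * h') * (C a * X ^ (n + 1)) := by
        rw [← hh']
      linear_combination h1 + h2

/-- `q`-th roots of power series with prescribed nonzero constant coefficient. -/
theorem exists_pow_eq34 (q : ℕ) (hq : (q : κ) ≠ 0) (f : κ⟦X⟧) (c : κ) (hc : c ≠ 0)
    (h : constantCoeff f = c ^ q) : ∃ η : κ⟦X⟧, η ^ q = f ∧ constantCoeff η = c := by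
  classical
  have hq0 : q ≠ 0 := by rintro rfl; simp at hq
  let g : ℕ → κ⟦X⟧ := fun n => Nat.rec (C c)
    (fun n gn => gn + C (coeff (n + 1) (f - gn ^ q) / ((q : κ) * c ^ (q - 1))) * X ^ (n + 1)) n
  have hg0 : g 0 = C c := rfl
  have hgs : ∀ n, g (n + 1) = g n + C (coeff (n + 1) (f - (g n) ^ q) / ((q : κ) * c ^ (q - 1))) * X ^ (n + 1) :=
    fun n => rfl
  have hconst : ∀ n, constantCoeff (g n) = c := by
    intro n
    induction n with
    | zero => rw [hg0]; simp
    | succ n ih => rw [hgs]; simp [ih]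
  have hdiv : ∀ n, (X : κ⟦X⟧) ^ (n + 1) ∣ f - (g n) ^ q := by
    intro n
    induction n with
    | zero =>
      rw [zero_add, pow_one, X_dvd_iff, map_sub, map_pow, hconst 0, h, sub_self]
    | succ n ih =>
      obtain ⟨w, hw⟩ := pow_add_step34 q n (g n) (coeff (n + 1) (f - (g n) ^ q) / ((q : κ) * c ^ (q - 1)))
      rw [hconst n] at hw
      have hne : (q : κ) * c ^ (q - 1) ≠ 0 := mul_ne_zero hq (pow_ne_zero _ hc)
      have hcc : (q : κ) * c ^ (q - 1) * (coeff (n + 1) (f - (g n) ^ q) / ((q : κ) * c ^ (q - 1))) =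
          coeff (n + 1) (f - (g n) ^ q) := by
        field_simp
      rw [hcc] at hw
      have hd2 : (X : κ⟦X⟧) ^ (n + 2) ∣ (f - (g n) ^ q) - C (coeff (n + 1) (f - (g n) ^ q)) * X ^ (n + 1) := by
        rw [X_pow_dvd_iff]
        intro m hm
        rw [map_sub, coeff_C_mul, coeff_X_pow]
        rcases Nat.lt_or_ge m (n + 1) with hlt | hge
        · rw [if_neg (by omega), mul_zero, sub_zero]
          exact X_pow_dvd_iff.mp ih m hlt
        · have : m = n + 1 := by omega
          subst this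
          simp
      have : f - (g (n + 1)) ^ q = ((f - (g n) ^ q) - C (coeff (n + 1) (f - (g n) ^ q)) * X ^ (n + 1)) -
          X ^ (n + 2) * w := by
        rw [hgs, ← hw]; ring
      rw [show n + 1 + 1 = n + 2 from rfl, this]
      exact dvd_sub hd2 (dvd_mul_right _ _)
  have hstab : ∀ n m, n ≤ m → (X : κ⟦X⟧) ^ (n + 1) ∣ g m - g n := by
    intro n m hnm
    induction m, hnm using Nat.le_induction with
    | base => simp
    | succ m hm ih =>
      rw [hgs, add_sub_right_comm]
      exact dvd_add ih (Dvd.dvd.mul_left (pow_dvd_pow _ (by omega)) _)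
  let η : κ⟦X⟧ := PowerSeries.mk fun n => coeff n (g n)
  have hη : ∀ n, (X : κ⟦X⟧) ^ (n + 1) ∣ η - g n := by
    intro n
    rw [X_pow_dvd_iff]
    intro m hm
    rw [map_sub, coeff_mk]
    have h1 := X_pow_dvd_iff.mp (hstab m n (by omega)) m (by omega)
    rw [map_sub] at h1
    rw [← neg_sub, h1, neg_zero]
  refine ⟨η, ?_, ?_⟩
  · rw [← sub_eq_zero]
    ext n
    have h1 : (X : κ⟦X⟧) ^ (n + 1) ∣ η ^ q - f := by
      have h2 : (X : κ⟦X⟧) ^ (n + 1) ∣ η ^ q - (g n) ^ q := (hη n).trans (sub_dvd_pow_sub_pow _ _ q)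
      have h3 := dvd_sub h2 (hdiv n)
      have h4 : η ^ q - (g n) ^ q - (f - (g n) ^ q) = η ^ q - f := by ring
      rwa [h4] at h3
    rw [map_zero]
    exact X_pow_dvd_iff.mp h1 n (by omega)
  · have h1 := X_pow_dvd_iff.mp (hη 0) 0 (by omega)
    rw [map_sub, hg0] at h1
    simpa [sub_eq_zero] using h1

end Pool.Agent.AIC34
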